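import Pool.Agent.MP_2f9b3f_lc.Proof

namespace Pool.Agent.Results.MP_2f9b3f_lc.Counterexample

open Pool.Agent.MP_2f9b3f_lc

/-- There are `n`, a marginal scenario `M` on `[n]`, finite nonempty outcome sets, and an extreme
point of the polytope of marginal models whose entropy function is not the restriction to `M` of
any polymatroid on `[n]`. -/
theorem result :
    ∃ (n : ℕ) (M : Set (Finset (Fin n))) (O : Fin n → Type) (_ : ∀ i, Fintype (O i))
      (_ : ∀ i, Nonempty (O i)),
      IsScenario M ∧
        ∃ p ∈ (marginalModels M O).extremePoints ℝ,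
          ¬ IsNonContextual M (fun S => shannonEntropy (p S)) :=
  ⟨4, M4, O3, inferInstance, inferInstance, isScenario_M4, pt, pt_extreme, pt_contextual⟩

end Pool.Agent.Results.MP_2f9b3f_lc.Counterexample
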